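import Pool.Agent.Helper12.XG.St

/-! Project XG (MP_627c93_nt), module HCA. -/

set_option autoImplicit false

namespace Pool.Agent.Helper75.XG

open Finset Polynomial Pool.Agent.Helper12.XG Pool.Agent.Helper14.GS

private theorem iter_HCA (f : ℂ[X]) (n : ℕ) :
    iteratedDeriv n (fun z : ℂ => f.eval z) = fun z => (derivative^[n] f).eval z := by
  induction n with
  | zero => simp
  | succ n ih =>
    rw [iteratedDeriv_succ, ih, Function.iterate_succ_apply']
    funext z
    exact Polynomial.deriv _

theorem hHCA : Pool.Agent.Helper12.XG.StHCA := by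
  intro Γ b w r S hr h
  have hd : DiffContOnCl ℂ (fun z : ℂ => Γ.eval z) (Metric.ball w r) :=
    Γ.differentiable.diffContOnCl
  have h1 := Complex.norm_iteratedDeriv_le_of_forall_mem_sphere_norm_le b hr hd
    (C := S) (fun z hz => h z (by rw [mem_sphere_iff_norm] at hz; exact hz.le))
  rw [iter_HCA] at h1
  have h2 : (derivative^[b] Γ).eval w = (b.factorial : ℂ) * (hasseDeriv b Γ).eval w := by
    rw [← factorial_smul_hasseDeriv]
    simp
  simp only [h2] at h1
  rw [norm_mul, Complex.norm_natCast, mul_div_assoc] at h1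
  have hj : (0 : ℝ) < (b.factorial : ℝ) := by exact_mod_cast b.factorial_pos
  have h3 := le_of_mul_le_mul_left h1 hj
  rwa [le_div_iff₀ (pow_pos hr b)] at h3

end Pool.Agent.Helper75.XG
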